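import Mathlib

/-!
# Amiable semigroups avoiding `F` do not form a quasivariety

The class `𝒦` of amiable semigroups (as algebras of type `⟨2,1,1⟩`) with no subsemigroup isomorphic
to `F = ⟨a, b ∣ a² = a, b² = b⟩` contains all finite amiable semigroups, but a direct product of
finite amiable semigroups may contain `F`.  Hence `𝒦` is not axiomatised by quasi-identities.
-/

namespace Pool.Agent.Results.MP_e1ef61_al.NotQuasivariety

/-! ## Definitions used in the statement -/

/-- An algebra of type `⟨2,1,1⟩`. -/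
structure Alg (A : Type) where
  mul : A → A → A
  l : A → A
  r : A → A

/-- The relation `ℒ*`: for all `a, b ∈ S¹`, `xa = xb ↔ ya = yb`.  The case `b = 1` is spelled out
(if `S` is a monoid, it is contained in the first part). -/
def LStar {A : Type} (m : A → A → A) (x y : A) : Prop :=
  (∀ a b, m x a = m x b ↔ m y a = m y b) ∧ (∀ a, m x a = x ↔ m y a = y)

/-- The relation `ℛ*`: for all `a, b ∈ S¹`, `ax = bx ↔ ay = by`. -/
def RStar {A : Type} (m : A → A → A) (x y : A) : Prop :=
  (∀ a b, m a x = m b x ↔ m a y = m b y) ∧ (∀ a, m a x = x ↔ m a y = y)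

/-- `S` is an amiable semigroup and `l x`, `r x` are the unique idempotents in the `ℒ*`-class and
in the `ℛ*`-class of `x`. -/
structure IsAmiable {A : Type} (S : Alg A) : Prop where
  assoc : ∀ x y z, S.mul (S.mul x y) z = S.mul x (S.mul y z)
  l_idem : ∀ x, S.mul (S.l x) (S.l x) = S.l x
  l_rel : ∀ x, LStar S.mul x (S.l x)
  l_unique : ∀ x e, S.mul e e = e → LStar S.mul x e → e = S.l x
  r_idem : ∀ x, S.mul (S.r x) (S.r x) = S.r x
  r_rel : ∀ x, RStar S.mul x (S.r x)
  r_unique : ∀ x e, S.mul e e = e → RStar S.mul x e → e = S.r x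

/-- The semigroup `F = ⟨a, b ∣ a² = a, b² = b⟩`: the pair `(s, m)` is the alternating word of
length `m + 1` that begins with `a` if `s = true` and with `b` if `s = false`. -/
abbrev F := Bool × ℕ

/-- the last letter of an alternating word -/
def last (w : F) : Bool := xor w.1 (decide (w.2 % 2 = 1))

/-- Multiplication of alternating words: concatenate and replace `aa` by `a`, `bb` by `b`. -/
def mulF (v w : F) : F := (v.1, if last v = w.1 then v.2 + w.2 else v.2 + w.2 + 1)

/-- `S` has no subsemigroup isomorphic to `F`. -/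
def AvoidsF {A : Type} (S : Alg A) : Prop :=
  ¬ ∃ f : F → A, Function.Injective f ∧ ∀ v w, f (mulF v w) = S.mul (f v) (f w)

/-- The class `𝒦`. -/
def InK {A : Type} (S : Alg A) : Prop := IsAmiable S ∧ AvoidsF S

/-- Terms of type `⟨2,1,1⟩`. -/
inductive Tm
  | var : ℕ → Tm
  | mul : Tm → Tm → Tm
  | l : Tm → Tm
  | r : Tm → Tm

/-- value of a term -/
def Tm.eval {A : Type} (S : Alg A) (v : ℕ → A) : Tm → A
  | .var n => v n
  | .mul s t => S.mul (s.eval S v) (t.eval S v)
  | .l s => S.l (s.eval S v)
  | .r s => S.r (s.eval S v)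

/-- A quasi-identity: finitely many premises and a conclusion. -/
structure QI where
  prem : List (Tm × Tm)
  concl : Tm × Tm

/-- The algebra satisfies the quasi-identity. -/
def Alg.Sat {A : Type} (S : Alg A) (q : QI) : Prop :=
  ∀ v : ℕ → A, (∀ p ∈ q.prem, p.1.eval S v = p.2.eval S v) →
    q.concl.1.eval S v = q.concl.2.eval S v

/-- direct product of countably many algebras -/
def prod (A : ℕ → Type) (S : ∀ n, Alg (A n)) : Alg (∀ n, A n) where
  mul x y := fun n => (S n).mul (x n) (y n)
  l x := fun n => (S n).l (x n)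
  r x := fun n => (S n).r (x n)

/-! ## `F` is the presented semigroup -/

/-- the letters -/
def fa : F := (true, 0)
def fb : F := (false, 0)

theorem mulF_assoc (u v w : F) : mulF (mulF u v) w = mulF u (mulF v w) := by
  obtain ⟨s, m⟩ := u
  obtain ⟨t, k⟩ := v
  obtain ⟨q, j⟩ := w
  rcases Nat.even_or_odd' m with ⟨m', rfl | rfl⟩ <;> rcases Nat.even_or_odd' k with ⟨k', rfl | rfl⟩ <;>
    cases s <;> cases t <;> cases q <;>
    simp [mulF, last, Nat.add_mod] <;> omega

theorem fa_idem : mulF fa fa = fa := by simp [mulF, last, fa]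
theorem fb_idem : mulF fb fb = fb := by simp [mulF, last, fb]

/-- evaluation of an alternating word at two elements -/
def wd {A : Type} (m : A → A → A) (x y : A) (b : Bool) : ℕ → A
  | 0 => if b then x else y
  | k + 1 => m (wd m x y b k) (if last (b, k + 1) then x else y)

theorem last_succ (b : Bool) (k : ℕ) : last (b, k + 1) = !last (b, k) := by
  rcases Nat.even_or_odd' k with ⟨k', rfl | rfl⟩ <;> cases b <;> simp [last, Nat.add_mod]

theorem wd_last {A : Type} (m : A → A → A) (hm : ∀ x y z, m (m x y) z = m x (m y z)) (x y : A)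
    (hx : m x x = x) (hy : m y y = y) (b : Bool) (k : ℕ) :
    m (wd m x y b k) (if last (b, k) then x else y) = wd m x y b k := by
  cases k with
  | zero =>
    have : last (b, 0) = b := by cases b <;> simp [last]
    rw [this]
    cases b <;> simp [wd, hx, hy]
  | succ k =>
    rw [wd, hm]
    congr 1
    by_cases h : last (b, k + 1) = true
    · simp [h, hx]
    · simp [h, hy]

/-- `F` has the universal property of the semigroup `⟨a, b ∣ a² = a, b² = b⟩`. -/
theorem F_universal {A : Type} (m : A → A → A) (hm : ∀ x y z, m (m x y) z = m x (m y z)) (x y : A)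
    (hx : m x x = x) (hy : m y y = y) :
    ∃! g : F → A, (∀ v w, g (mulF v w) = m (g v) (g w)) ∧ g fa = x ∧ g fb = y := by
  refine ⟨fun v => wd m x y v.1 v.2, ⟨?_, by simp [fa, wd], by simp [fb, wd]⟩, ?_⟩
  · rintro ⟨b, i⟩ ⟨c, k⟩
    induction k with
    | zero =>
      simp only [mulF]
      have hc : (if c then x else y) = wd m x y c 0 := rfl
      by_cases h : last (b, i) = c
      · rw [if_pos h, ← hc, ← h]
        exact (wd_last m hm x y hx hy b i).symm
      · rw [if_neg h]
        change m (wd m x y b i) (if last (b, i + 1) then x else y) = _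
        rw [last_succ, ← hc]
        have : (!last (b, i)) = c := by
          cases hl : last (b, i) <;> cases c <;> simp_all
        rw [this]
    | succ k ih =>
      have e1 : (mulF (b, i) (c, k + 1)) = (b, (mulF (b, i) (c, k)).2 + 1) := by
        simp only [mulF]
        split_ifs <;> rfl
      have e2 : last (b, (mulF (b, i) (c, k)).2 + 1) = last (c, k + 1) := by
        rcases Nat.even_or_odd' i with ⟨i', rfl | rfl⟩ <;>
          rcases Nat.even_or_odd' k with ⟨k', rfl | rfl⟩ <;> cases b <;> cases c <;>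
          simp [mulF, last, Nat.add_mod]
      rw [e1]
      change m (wd m x y b (mulF (b, i) (c, k)).2) (if last (b, (mulF (b, i) (c, k)).2 + 1)
        then x else y) = m (wd m x y b i) (m (wd m x y c k) (if last (c, k + 1) then x else y))
      rw [e2, ← hm]
      congr 1
  · rintro g ⟨hg, h1, h2⟩
    funext ⟨b, k⟩
    have h0 : ∀ c : Bool, g (c, 0) = if c then x else y := by
      intro c
      cases c
      · exact h2
      · exact h1
    induction k with
    | zero => exact h0 b
    | succ k ih =>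
      have : mulF (b, k) (last (b, k + 1), 0) = (b, k + 1) := by
        rw [last_succ]
        simp [mulF]
      have e : g (b, k + 1) = g (mulF (b, k) (last (b, k + 1), 0)) := by rw [this]
      rw [e, hg, ih, h0]
      rfl

/-! ## The finite amiable semigroups

The carrier consists of relations on `{0, …, n-1}` of the form `{(i, i+d) : i ∈ I}`, where all
elements of `I` have the same parity; the product is `x ; P ; y` with
`P = {(j, j), (j, j+1)}`. -/

/-- the relations in the carrier -/
def Good (n : ℕ) (x : Set (ℕ × ℕ)) : Prop :=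
  ∃ d p : ℕ, ∀ q ∈ x, q.2 = q.1 + d ∧ q.1 % 2 = p ∧ q.2 < n

/-- the product -/
def rmul (x y : Set (ℕ × ℕ)) : Set (ℕ × ℕ) :=
  {q | ∃ j k, (q.1, j) ∈ x ∧ (k = j ∨ k = j + 1) ∧ (k, q.2) ∈ y}

theorem good_mul {n : ℕ} {x y : Set (ℕ × ℕ)} (hx : Good n x) (hy : Good n y) :
    Good n (rmul x y) := by
  obtain ⟨d, p, hx⟩ := hx
  obtain ⟨c, q, hy⟩ := hy
  refine ⟨d + (p + d + q) % 2 + c, p, ?_⟩
  rintro ⟨i, l⟩ ⟨j, k, h1, h2, h3⟩
  have a1 := hx _ h1
  have a2 := hy _ h3
  simp only at a1 a2 ⊢
  omega

/-- the semigroup `S_n` -/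
def Sn (n : ℕ) : Alg {x : Set (ℕ × ℕ) // Good n x} where
  mul x y := ⟨rmul x.1 y.1, good_mul x.2 y.2⟩
  l x := ⟨{q | q.1 = q.2 ∧ ∃ i, (i, q.1) ∈ x.1}, by
    obtain ⟨d, p, h⟩ := x.2
    refine ⟨0, (p + d) % 2, ?_⟩
    rintro ⟨j, j'⟩ ⟨e, i, hi⟩
    have := h _ hi
    simp only at this e ⊢
    omega⟩
  r x := ⟨{q | q.1 = q.2 ∧ ∃ j, (q.1, j) ∈ x.1}, by
    obtain ⟨d, p, h⟩ := x.2
    refine ⟨0, p, ?_⟩
    rintro ⟨i, i'⟩ ⟨e, j, hj⟩
    have := h _ hj
    simp only at this e ⊢
    omega⟩

theorem rmul_assoc (x y z : Set (ℕ × ℕ)) : rmul (rmul x y) z = rmul x (rmul y z) := by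
  ext ⟨i, l⟩
  constructor
  · rintro ⟨j, k, ⟨j', k', h1, h2, h3⟩, h4, h5⟩
    exact ⟨j', k', h1, h2, ⟨j, k, h3, h4, h5⟩⟩
  · rintro ⟨j', k', h1, h2, ⟨j, k, h3, h4, h5⟩⟩
    exact ⟨j, k, ⟨j', k', h1, h2, h3⟩, h4, h5⟩

/-- idempotents of `S_n` are diagonal -/
theorem idem_diag {n : ℕ} {e : Set (ℕ × ℕ)} (he : Good n e) (hee : rmul e e = e) {i j : ℕ}
    (h : (i, j) ∈ e) : i = j := by
  obtain ⟨d, p, hd⟩ := he
  have h' := h
  rw [← hee] at h'
  obtain ⟨j1, k, h1, h2, h3⟩ := h'
  have a1 := hd _ h
  have a2 := hd _ h1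
  have a3 := hd _ h3
  simp only at a1 a2 a3
  omega

theorem diag_sub {n : ℕ} {e f : Set (ℕ × ℕ)} (he : Good n e) (hee : rmul e e = e)
    (hf : Good n f) (hff : rmul f f = f) (hef : rmul e f = e) : e ⊆ f := by
  rintro ⟨i, j⟩ hij
  have e1 := idem_diag he hee hij
  subst e1
  have h := hij
  rw [← hef] at h
  obtain ⟨j1, k, h1, h2, h3⟩ := h
  have e2 := idem_diag hf hff h3
  subst e2
  exact h3

theorem diag_sub' {n : ℕ} {e f : Set (ℕ × ℕ)} (he : Good n e) (hee : rmul e e = e)
    (hf : Good n f) (hff : rmul f f = f) (hef : rmul f e = e) : e ⊆ f := by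
  rintro ⟨i, j⟩ hij
  have e1 := idem_diag he hee hij
  subst e1
  have h := hij
  rw [← hef] at h
  obtain ⟨j1, k, h1, h2, h3⟩ := h
  have e2 := idem_diag hf hff h1
  subst e2
  exact h1

theorem sn_amiable (n : ℕ) : IsAmiable (Sn n) := by
  have l_idem : ∀ x, (Sn n).mul ((Sn n).l x) ((Sn n).l x) = (Sn n).l x := by
    intro x
    apply Subtype.ext
    ext ⟨i, j⟩
    obtain ⟨d, p, h⟩ := x.2
    constructor
    · rintro ⟨j1, k, ⟨e1, i1, h1⟩, h2, ⟨e2, i2, h3⟩⟩
      have a1 := h _ h1
      have a2 := h _ h3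
      simp only at e1 e2 a1 a2
      have : i = j := by omega
      exact ⟨this, i1, h1⟩
    · rintro ⟨e, i1, h1⟩
      exact ⟨j, j, ⟨e, i1, h1⟩, Or.inl rfl, ⟨rfl, i1, by
        have e' : i = j := e
        rw [← e']; exact h1⟩⟩
  have r_idem : ∀ x, (Sn n).mul ((Sn n).r x) ((Sn n).r x) = (Sn n).r x := by
    intro x
    apply Subtype.ext
    ext ⟨i, j⟩
    obtain ⟨d, p, h⟩ := x.2
    constructor
    · rintro ⟨j1, k, ⟨e1, i1, h1⟩, h2, ⟨e2, i2, h3⟩⟩
      have a1 := h _ h1
      have a2 := h _ h3
      simp only at e1 e2 a1 a2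
      have : i = j := by omega
      exact ⟨this, i1, h1⟩
    · rintro ⟨e, i1, h1⟩
      exact ⟨j, j, ⟨e, i1, h1⟩, Or.inl rfl, ⟨rfl, i1, by
        have e' : i = j := e
        rw [← e']; exact h1⟩⟩
  have l_rel : ∀ x, LStar (Sn n).mul x ((Sn n).l x) := by
    intro x
    obtain ⟨d, p, h⟩ := x.2
    have inj : ∀ {i j j'}, (i, j) ∈ x.1 → (i, j') ∈ x.1 → j = j' := by
      intro i j j' h1 h2
      have a1 := h _ h1
      have a2 := h _ h2
      simp only at a1 a2
      omega
    have inj' : ∀ {i i' j}, (i, j) ∈ x.1 → (i', j) ∈ x.1 → i = i' := by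
      intro i i' j h1 h2
      have a1 := h _ h1
      have a2 := h _ h2
      simp only at a1 a2
      omega
    -- `(i, l) ∈ x u ↔ (j, l) ∈ (l x) u` for `(i, j) ∈ x`
    have key : ∀ (u : {x : Set (ℕ × ℕ) // Good n x}) (i j l : ℕ), (i, j) ∈ x.1 →
        ((i, l) ∈ rmul x.1 u.1 ↔ (j, l) ∈ rmul ((Sn n).l x).1 u.1) := by
      intro u i j l hij
      constructor
      · rintro ⟨j1, k, h1, h2, h3⟩
        have := inj hij h1
        subst this
        exact ⟨j, k, ⟨rfl, i, hij⟩, h2, h3⟩
      · rintro ⟨j1, k, ⟨e, i1, h1⟩, h2, h3⟩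
        have e' : j = j1 := e
        subst e'
        exact ⟨j, k, hij, h2, h3⟩
    constructor
    · intro u v
      constructor
      · intro huv
        have huv' : rmul x.1 u.1 = rmul x.1 v.1 := congrArg Subtype.val huv
        apply Subtype.ext
        ext ⟨j, l⟩
        have gen : ∀ w w' : {x : Set (ℕ × ℕ) // Good n x}, rmul x.1 w.1 = rmul x.1 w'.1 →
            (j, l) ∈ rmul ((Sn n).l x).1 w.1 → (j, l) ∈ rmul ((Sn n).l x).1 w'.1 := by
          intro w w' hw hjl
          have hjl' := hjl
          obtain ⟨j1, k, ⟨e, i1, h1⟩, h2, h3⟩ := hjl'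
          exact (key w' i1 j l h1).mp (hw ▸ (key w i1 j l h1).mpr hjl)
        exact ⟨gen u v huv', gen v u huv'.symm⟩
      · intro huv
        have huv' : rmul ((Sn n).l x).1 u.1 = rmul ((Sn n).l x).1 v.1 := congrArg Subtype.val huv
        apply Subtype.ext
        ext ⟨i, l⟩
        have gen : ∀ w w' : {x : Set (ℕ × ℕ) // Good n x},
            rmul ((Sn n).l x).1 w.1 = rmul ((Sn n).l x).1 w'.1 →
            (i, l) ∈ rmul x.1 w.1 → (i, l) ∈ rmul x.1 w'.1 := by
          intro w w' hw hil
          have hil' := hil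
          obtain ⟨j1, k, h1, h2, h3⟩ := hil'
          exact (key w' i j1 l h1).mpr (hw ▸ (key w i j1 l h1).mp hil)
        exact ⟨gen u v huv', gen v u huv'.symm⟩
    · intro u
      constructor
      · intro hu
        have hu' : rmul x.1 u.1 = x.1 := congrArg Subtype.val hu
        apply Subtype.ext
        ext ⟨j, l⟩
        constructor
        · intro hjl
          have hjl' := hjl
          obtain ⟨j1, k, ⟨e, i1, h1⟩, h2, h3⟩ := hjl'
          have h4 := (key u i1 j l h1).mpr hjl
          rw [hu'] at h4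
          exact ⟨inj h1 h4, i1, h1⟩
        · rintro ⟨e, i1, h1⟩
          have e' : j = l := e
          subst e'
          exact (key u i1 j j h1).mp (by rw [hu']; exact h1)
      · intro hu
        have hu' : rmul ((Sn n).l x).1 u.1 = ((Sn n).l x).1 := congrArg Subtype.val hu
        apply Subtype.ext
        ext ⟨i, l⟩
        constructor
        · intro hil
          have hil' := hil
          obtain ⟨j1, k, h1, h2, h3⟩ := hil'
          have h4 := (key u i j1 l h1).mp hil
          rw [hu'] at h4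
          have e : j1 = l := h4.1
          rw [← e]; exact h1
        · intro hil
          exact (key u i l l hil).mpr (by rw [hu']; exact ⟨rfl, i, hil⟩)
  have r_rel : ∀ x, RStar (Sn n).mul x ((Sn n).r x) := by
    intro x
    obtain ⟨d, p, h⟩ := x.2
    have inj' : ∀ {i i' j}, (i, j) ∈ x.1 → (i', j) ∈ x.1 → i = i' := by
      intro i i' j h1 h2
      have a1 := h _ h1
      have a2 := h _ h2
      simp only at a1 a2
      omega
    have key : ∀ (u : {x : Set (ℕ × ℕ) // Good n x}) (i j l : ℕ), (i, j) ∈ x.1 →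
        ((l, j) ∈ rmul u.1 x.1 ↔ (l, i) ∈ rmul u.1 ((Sn n).r x).1) := by
      intro u i j l hij
      constructor
      · rintro ⟨j1, k, h1, h2, h3⟩
        have := inj' hij h3
        subst this
        exact ⟨j1, i, h1, h2, ⟨rfl, j, hij⟩⟩
      · rintro ⟨j1, k, h1, h2, ⟨e, i1, h3⟩⟩
        have e' : k = i := e
        subst e'
        exact ⟨j1, k, h1, h2, hij⟩
    constructor
    · intro u v
      constructor
      · intro huv
        have huv' : rmul u.1 x.1 = rmul v.1 x.1 := congrArg Subtype.val huv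
        apply Subtype.ext
        ext ⟨l, i⟩
        have gen : ∀ w w' : {x : Set (ℕ × ℕ) // Good n x}, rmul w.1 x.1 = rmul w'.1 x.1 →
            (l, i) ∈ rmul w.1 ((Sn n).r x).1 → (l, i) ∈ rmul w'.1 ((Sn n).r x).1 := by
          intro w w' hw hjl
          have hjl' := hjl
          obtain ⟨j1, k, h1, h2, ⟨e, i1, h3⟩⟩ := hjl'
          have e' : k = i := e
          subst e'
          exact (key w' k i1 l h3).mp (hw ▸ (key w k i1 l h3).mpr hjl)
        exact ⟨gen u v huv', gen v u huv'.symm⟩
      · intro huv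
        have huv' : rmul u.1 ((Sn n).r x).1 = rmul v.1 ((Sn n).r x).1 := congrArg Subtype.val huv
        apply Subtype.ext
        ext ⟨l, j⟩
        have gen : ∀ w w' : {x : Set (ℕ × ℕ) // Good n x},
            rmul w.1 ((Sn n).r x).1 = rmul w'.1 ((Sn n).r x).1 →
            (l, j) ∈ rmul w.1 x.1 → (l, j) ∈ rmul w'.1 x.1 := by
          intro w w' hw hil
          have hil' := hil
          obtain ⟨j1, k, h1, h2, h3⟩ := hil'
          exact (key w' k j l h3).mpr (hw ▸ (key w k j l h3).mp hil)
        exact ⟨gen u v huv', gen v u huv'.symm⟩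
    · intro u
      constructor
      · intro hu
        have hu' : rmul u.1 x.1 = x.1 := congrArg Subtype.val hu
        apply Subtype.ext
        ext ⟨l, i⟩
        constructor
        · intro hjl
          have hjl' := hjl
          obtain ⟨j1, k, h1, h2, ⟨e, i1, h3⟩⟩ := hjl'
          have e' : k = i := e
          subst e'
          have h4 := (key u k i1 l h3).mpr hjl
          rw [hu'] at h4
          have : l = k := inj' h4 h3
          subst this
          exact ⟨rfl, i1, h3⟩
        · rintro ⟨e, i1, h1⟩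
          have e' : l = i := e
          subst e'
          exact (key u l i1 l h1).mp (by rw [hu']; exact h1)
      · intro hu
        have hu' : rmul u.1 ((Sn n).r x).1 = ((Sn n).r x).1 := congrArg Subtype.val hu
        apply Subtype.ext
        ext ⟨l, j⟩
        constructor
        · intro hil
          have hil' := hil
          obtain ⟨j1, k, h1, h2, h3⟩ := hil'
          have h4 := (key u k j l h3).mp hil
          rw [hu'] at h4
          have e : l = k := h4.1
          rw [e]; exact h3
        · intro hil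
          exact (key u l j l hil).mpr (by rw [hu']; exact ⟨rfl, j, hil⟩)
  refine ⟨fun x y z => Subtype.ext (rmul_assoc _ _ _), l_idem, l_rel, ?_, r_idem, r_rel, ?_⟩
  · intro x e hee hxe
    -- `e` and `l x` are `ℒ*`-related idempotents
    have h1 : (Sn n).mul ((Sn n).l x) e = (Sn n).l x :=
      ((l_rel x).2 e).mp ((hxe.2 e).mpr hee)
    have h2 : (Sn n).mul e ((Sn n).l x) = e :=
      (hxe.2 _).mp (((l_rel x).2 _).mpr (l_idem x))
    apply Subtype.ext
    apply Set.Subset.antisymm
    · exact diag_sub e.2 (congrArg Subtype.val hee) ((Sn n).l x).2 (congrArg Subtype.val (l_idem x))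
        (congrArg Subtype.val h2)
    · exact diag_sub ((Sn n).l x).2 (congrArg Subtype.val (l_idem x)) e.2
        (congrArg Subtype.val hee) (congrArg Subtype.val h1)
  · intro x e hee hxe
    have h1 : (Sn n).mul e ((Sn n).r x) = (Sn n).r x :=
      ((r_rel x).2 e).mp ((hxe.2 e).mpr hee)
    have h2 : (Sn n).mul ((Sn n).r x) e = e :=
      (hxe.2 _).mp (((r_rel x).2 _).mpr (r_idem x))
    apply Subtype.ext
    apply Set.Subset.antisymm
    · exact diag_sub' e.2 (congrArg Subtype.val hee) ((Sn n).r x).2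
        (congrArg Subtype.val (r_idem x)) (congrArg Subtype.val h2)
    · exact diag_sub' ((Sn n).r x).2 (congrArg Subtype.val (r_idem x)) e.2
        (congrArg Subtype.val hee) (congrArg Subtype.val h1)

theorem sn_finite (n : ℕ) : Finite {x : Set (ℕ × ℕ) // Good n x} := by
  have hfin : (Set.Iio n ×ˢ Set.Iio n : Set (ℕ × ℕ)).Finite :=
    (Set.finite_Iio n).prod (Set.finite_Iio n)
  have hsub : {x : Set (ℕ × ℕ) | Good n x} ⊆ 𝒫 (Set.Iio n ×ˢ Set.Iio n) := by
    rintro x ⟨d, p, h⟩ ⟨i, j⟩ hq
    have := h _ hq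
    simp only at this
    constructor
    · change i < n
      omega
    · change j < n
      omega
  exact (hfin.powerset.subset hsub).to_subtype

theorem sn_inK (n : ℕ) : InK (Sn n) := by
  refine ⟨sn_amiable n, ?_⟩
  rintro ⟨f, hf, -⟩
  have := sn_finite n
  have hF : Finite F := Finite.of_injective f hf
  have : Finite ℕ := Finite.of_injective (fun k : ℕ => ((true, k) : F)) (by
    intro a b h
    exact (Prod.mk.inj h).2)
  exact not_finite ℕ

/-! ## The product contains `F` -/

/-- parity of a letter -/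
def par (b : Bool) : ℕ := if b then 0 else 1

/-- image of an alternating word in `S_n` -/
def word (n : ℕ) (w : F) : {x : Set (ℕ × ℕ) // Good n x} :=
  ⟨{q | q.2 = q.1 + w.2 ∧ q.1 % 2 = par w.1 ∧ q.2 < n}, w.2, par w.1, fun _ h => h⟩

theorem word_mul (n : ℕ) (v w : F) : word n (mulF v w) = (Sn n).mul (word n v) (word n w) := by
  obtain ⟨s, m⟩ := v
  obtain ⟨t, k⟩ := w
  apply Subtype.ext
  ext ⟨i, l⟩
  have hl : (last (s, m) = t) ↔ (par s + m) % 2 = par t := by
    rcases Nat.even_or_odd' m with ⟨m', rfl | rfl⟩ <;> cases s <;> cases t <;>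
      simp [last, par, Nat.add_mod]
  have hs : par s < 2 := by cases s <;> simp [par]
  have ht : par t < 2 := by cases t <;> simp [par]
  constructor
  · intro h
    have h' : l = i + (if last (s, m) = t then m + k else m + k + 1) ∧ i % 2 = par s ∧ l < n := h
    by_cases hc : last (s, m) = t
    · rw [if_pos hc] at h'
      have hc' := hl.mp hc
      refine ⟨i + m, i + m, ⟨rfl, h'.2.1, ?_⟩, Or.inl rfl, ⟨?_, ?_, h'.2.2⟩⟩
      · change i + m < n; omega
      · change l = i + m + k; omega
      · change (i + m) % 2 = par t; omega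
    · rw [if_neg hc] at h'
      have hc' : ¬ (par s + m) % 2 = par t := fun h => hc (hl.mpr h)
      refine ⟨i + m, i + m + 1, ⟨rfl, h'.2.1, ?_⟩, Or.inr rfl, ⟨?_, ?_, h'.2.2⟩⟩
      · change i + m < n; omega
      · change l = i + m + 1 + k; omega
      · change (i + m + 1) % 2 = par t; omega
  · rintro ⟨j, k', ⟨h1, h2, h3⟩, h4, ⟨h5, h6, h7⟩⟩
    change l = i + (if last (s, m) = t then m + k else m + k + 1) ∧ i % 2 = par s ∧ l < n
    simp only at h1 h2 h3 h5 h6 h7
    by_cases hc : last (s, m) = t
    · rw [if_pos hc]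
      have hc' := hl.mp hc
      omega
    · rw [if_neg hc]
      have hc' : ¬ (par s + m) % 2 = par t := fun h => hc (hl.mpr h)
      omega

theorem word_inj (v w : F) (h : ∀ n, word n v = word n w) : v = w := by
  obtain ⟨s, m⟩ := v
  obtain ⟨t, k⟩ := w
  have h1 := congrArg Subtype.val (h (m + k + 2))
  have h2 : (par s, par s + m) ∈ (word (m + k + 2) (t, k)).1 := by
    rw [← h1]
    have : par s < 2 := by cases s <;> simp [par]
    refine ⟨rfl, ?_, ?_⟩
    · change par s % 2 = par s; omega
    · change par s + m < m + k + 2; omega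
  obtain ⟨a1, a2, a3⟩ := h2
  simp only at a1 a2 a3
  have hs : par s < 2 := by cases s <;> simp [par]
  have e1 : m = k := by omega
  have e2 : par s = par t := by omega
  have e3 : s = t := by
    cases s <;> cases t <;> simp_all [par]
  rw [e1, e3]

/-! ## Quasi-identities are preserved by products -/

theorem eval_prod (A : ℕ → Type) (S : ∀ n, Alg (A n)) (v : ℕ → ∀ n, A n) (t : Tm) (n : ℕ) :
    t.eval (prod A S) v n = t.eval (S n) (fun i => v i n) := by
  induction t with
  | var i => rfl
  | mul s t ih1 ih2 => simp only [Tm.eval, ← ih1, ← ih2]; rfl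
  | l s ih => simp only [Tm.eval, ← ih]; rfl
  | r s ih => simp only [Tm.eval, ← ih]; rfl

theorem sat_prod (A : ℕ → Type) (S : ∀ n, Alg (A n)) (q : QI) (h : ∀ n, (S n).Sat q) :
    (prod A S).Sat q := by
  intro v hp
  funext n
  rw [eval_prod, eval_prod]
  apply h n
  intro p hp'
  have := congrFun (hp p hp') n
  rwa [eval_prod, eval_prod] at this

/-- **The amiable semigroups avoiding `F` do not form a quasivariety.**  There are finite amiable
semigroups `S_0, S_1, …` (each of them avoids `F`) whose direct product contains a copy of `F`.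
No set of quasi-identities in the signature `(·, ℓ, r)` has exactly the members of `𝒦` as its
models. -/
theorem result :
    (∃ (A : ℕ → Type) (S : ∀ n, Alg (A n)), (∀ n, Finite (A n)) ∧ (∀ n, InK (S n)) ∧
      ¬ InK (prod A S)) ∧
    ∀ Q : Set QI, ¬ ∀ (A : Type) (S : Alg A), InK S ↔ ∀ q ∈ Q, S.Sat q := by
  have hprod : ¬ InK (prod _ Sn) := by
    rintro ⟨_, h⟩
    apply h
    refine ⟨fun w n => word n w, ?_, ?_⟩
    · intro v w hvw
      exact word_inj v w (fun n => congrFun hvw n)
    · intro v w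
      funext n
      exact word_mul n v w
  refine ⟨⟨_, Sn, sn_finite, sn_inK, hprod⟩, ?_⟩
  intro Q hQ
  apply hprod
  rw [hQ]
  intro q hq
  exact sat_prod _ _ q (fun n => (hQ _ _).mp (sn_inK n) q hq)

end Pool.Agent.Results.MP_e1ef61_al.NotQuasivariety
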